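import Pool.Agent.helper88.Probe.M5a

/-! M5: interior compactness. -/

open MeasureTheory Metric Set Filter Topology
open scoped ContDiff ENNReal Pointwise

namespace Pool.Agent.helper88.Probe

open Pool.Agent.helper27.Probe

theorem Q_vol {s : ℝ} (hs : 0 < s) (k : Fin 3 → ℤ) :
    volume (Q s k) = ENNReal.ofReal (s ^ 3) * volume (Q 1 0) := by
  have h1 : Q s k = (fun y : E => (s • (WithLp.toLp 2 (fun i => (k i : ℝ)) : E)) + y) ''
      (s • Q 1 0) := by
    ext y
    constructor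
    · intro hy
      refine ⟨y - s • (WithLp.toLp 2 (fun i => (k i : ℝ)) : E), ⟨s⁻¹ • y -
        (WithLp.toLp 2 (fun i => (k i : ℝ)) : E), ?_, ?_⟩, by simp⟩
      · funext i
        have h := congr_fun (show cell s y = k from hy) i
        simp only [cell, PiLp.sub_apply, PiLp.smul_apply, smul_eq_mul, div_one, Pi.zero_apply] at h ⊢
        rw [div_eq_inv_mul] at h
        rw [Int.floor_sub_intCast, h, sub_self]
      · change s • (s⁻¹ • y - _) = _
        rw [smul_sub, smul_inv_smul₀ hs.ne']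
    · rintro ⟨_, ⟨x, hx, rfl⟩, rfl⟩
      funext i
      have h := congr_fun (show cell 1 x = 0 from hx) i
      simp only [cell, PiLp.add_apply, PiLp.smul_apply, smul_eq_mul, div_one, Pi.zero_apply] at h ⊢
      rw [← mul_add, mul_div_cancel_left₀ _ hs.ne', Int.floor_intCast_add, h, add_zero]
  rw [h1, image_add_left, measure_preimage_add, Measure.addHaar_smul_of_nonneg _ hs.le]
  simp

theorem Q1_pos : 0 < (volume : Measure E).real (Q 1 0) := by
  have hfin : volume (Q 1 0) ≠ ⊤ := (Q_bounded one_pos 0).measure_lt_top.ne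
  refine ENNReal.toReal_pos ?_ hfin
  have hsub : ball (WithLp.toLp 2 (fun _ => (1 / 2 : ℝ)) : E) (1 / 4) ⊆ Q 1 0 := by
    intro y hy
    funext i
    have h1 : |y i - 1 / 2| ≤ ‖y - (WithLp.toLp 2 (fun _ => (1 / 2 : ℝ)) : E)‖ := by
      have := PiLp.norm_apply_le (p := 2) (y - (WithLp.toLp 2 (fun _ => (1 / 2 : ℝ)) : E)) i
      simpa using this
    have h2 : ‖y - (WithLp.toLp 2 (fun _ => (1 / 2 : ℝ)) : E)‖ < 1 / 4 := by
      rw [← dist_eq_norm]; exact hy
    have h3 := abs_lt.1 (h1.trans_lt h2)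
    simp only [cell, div_one, Pi.zero_apply]
    rw [Int.floor_eq_zero_iff]
    constructor
    · linarith [h3.1]
    · linarith [h3.2]
  have := (measure_mono hsub).trans_lt' (measure_ball_pos volume _ (by norm_num))
  exact this.ne'

/-- estimate of `∫_K |f|²` -/
theorem main_bound (hT : TransIneq) {U : Set E} (hU : IsOpen U) {f : E → ℂ} {g : Fin 3 → E → ℂ}
    (hf : H1 U f g) (hm : Measurable f) {s : ℝ} (hs : 0 < s) (F : Finset (Fin 3 → ℤ))
    (hF : ∀ k ∈ F, ∀ y ∈ Q s k, closedBall y (2 * s) ⊆ U) :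
    ∑ k ∈ F, ∫ y in Q s k, ‖f y‖ ^ 2 ≤
      (volume : Measure E).real (closedBall (0 : E) 2) / (volume : Measure E).real (Q 1 0) *
        (2 * s ^ 2 * ∑ i, sq U (g i)) +
      (s ^ 3 * (volume : Measure E).real (Q 1 0))⁻¹ *
        ∑ k ∈ F, ‖∫ y in Q s k, f y‖ ^ 2 := by
  set q := (volume : Measure E).real (Q 1 0) with hq
  have hq0 : 0 < q := Q1_pos
  set S := ∑ i, sq U (g i) with hS
  have hS0 : 0 ≤ S := Finset.sum_nonneg fun i _ => sq_nonneg' _ _
  have hvol : ∀ k, (volume.restrict (Q s k) : Measure E).real univ = s ^ 3 * q := by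
    intro k
    rw [measureReal_restrict_apply MeasurableSet.univ, univ_inter, measureReal_def, Q_vol hs k,
      ENNReal.toReal_mul, ENNReal.toReal_ofReal (by positivity), hq, measureReal_def]
  have hfinQ : ∀ k, IsFiniteMeasure (volume.restrict (Q s k) : Measure E) := by
    intro k
    exact ⟨by rw [Measure.restrict_apply_univ]; exact (Q_bounded hs k).measure_lt_top⟩
  have hsub : ∀ k ∈ F, Q s k ⊆ U := fun k hk y hy =>
    hF k hk y hy (mem_closedBall_self (by positivity))
  have hmem : ∀ k ∈ F, MemLp f 2 (volume.restrict (Q s k)) := fun k hk =>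
    hf.memLp.mono_measure (Measure.restrict_mono (hsub k hk) le_rfl)
  have hcb := cells_bound hT hU hf hm hs F hF
  have hball : (volume : Measure E).real (closedBall (0 : E) (2 * s)) =
      s ^ 3 * (volume : Measure E).real (closedBall (0 : E) 2) := by
    have h1 : closedBall (0 : E) (2 * s) = s • closedBall (0 : E) 2 := by
      rw [_root_.smul_closedBall _ _ (by norm_num : (0:ℝ) ≤ 2), smul_zero, Real.norm_eq_abs, abs_of_pos hs, mul_comm]
    rw [h1, measureReal_def, Measure.addHaar_smul_of_nonneg _ hs.le, ENNReal.toReal_mul,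
      ENNReal.toReal_ofReal (by positivity), measureReal_def]
    simp
  -- the double integrals
  have hdd : ∀ k ∈ F, ENNReal.ofReal (∫ p : E × E, ‖f p.1 - f p.2‖ ^ 2
      ∂((volume.restrict (Q s k)).prod (volume.restrict (Q s k)))) =
      ∫⁻ y in Q s k, ∫⁻ z in Q s k, ‖f z - f y‖ₑ ^ 2 := by
    intro k hk
    have := hfinQ k
    have hd := double_diff (hmem k hk)
    rw [ofReal_integral_eq_lintegral_ofReal hd.1 (Eventually.of_forall fun y => by positivity)]
    rw [lintegral_prod]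
    · refine lintegral_congr fun y => lintegral_congr fun z => ?_
      rw [ENNReal.ofReal_pow (norm_nonneg _), ofReal_norm]
      simp only
      rw [← enorm_neg, neg_sub]
    · exact hd.1.1.aemeasurable.ennreal_ofReal
  have hsum : ∑ k ∈ F, ∫ p : E × E, ‖f p.1 - f p.2‖ ^ 2
      ∂((volume.restrict (Q s k)).prod (volume.restrict (Q s k))) ≤
      s ^ 3 * (volume : Measure E).real (closedBall (0 : E) 2) * ((2 * s) ^ 2 * S) := by
    rw [← hball]
    have h1 : ENNReal.ofReal (∑ k ∈ F, ∫ p : E × E, ‖f p.1 - f p.2‖ ^ 2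
      ∂((volume.restrict (Q s k)).prod (volume.restrict (Q s k)))) ≤
      ENNReal.ofReal ((volume : Measure E).real (closedBall (0 : E) (2 * s)) *
        ((2 * s) ^ 2 * S)) := by
      rw [ENNReal.ofReal_sum_of_nonneg (fun k _ => integral_nonneg fun p => by positivity),
        Finset.sum_congr rfl hdd, ENNReal.ofReal_mul measureReal_nonneg, ofReal_measureReal
          (h := (isCompact_closedBall (0 : E) (2 * s)).measure_lt_top.ne)]
      exact hcb
    exact (ENNReal.ofReal_le_ofReal_iff (by positivity)).1 h1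
  have hk : ∀ k ∈ F, ∫ y in Q s k, ‖f y‖ ^ 2 = (2 * (s ^ 3 * q))⁻¹ *
      (∫ p : E × E, ‖f p.1 - f p.2‖ ^ 2
        ∂((volume.restrict (Q s k)).prod (volume.restrict (Q s k)))) +
      (s ^ 3 * q)⁻¹ * ‖∫ y in Q s k, f y‖ ^ 2 := by
    intro k hk
    have := hfinQ k
    rw [(double_diff (hmem k hk)).2, hvol k]
    have : 0 < s ^ 3 * q := by positivity
    field_simp
    ring
  rw [Finset.sum_congr rfl hk, Finset.sum_add_distrib, ← Finset.mul_sum, ← Finset.mul_sum]
  refine add_le_add ?_ le_rfl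
  calc (2 * (s ^ 3 * q))⁻¹ * _ ≤ (2 * (s ^ 3 * q))⁻¹ *
      (s ^ 3 * (volume : Measure E).real (closedBall (0 : E) 2) * ((2 * s) ^ 2 * S)) :=
        mul_le_mul_of_nonneg_left hsum (by positivity)
    _ = _ := by
      field_simp

/-- a finite number of cells covers a bounded set -/
theorem cells_finite {s : ℝ} (hs : 0 < s) {K : Set E} (hK : Bornology.IsBounded K) :
    (cell s '' K).Finite := by
  obtain ⟨R, hR⟩ := hK.subset_closedBall 0
  have : cell s '' K ⊆ Set.pi univ (fun _ : Fin 3 => Icc (⌊-R / s⌋) (⌊R / s⌋)) := by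
    rintro _ ⟨y, hy, rfl⟩ i _
    have h1 : ‖y‖ ≤ R := by simpa using hR hy
    have h2 : |y i| ≤ R := (by simpa using PiLp.norm_apply_le (p := 2) y i : |y i| ≤ ‖y‖).trans h1
    have h3 := abs_le.1 h2
    exact ⟨Int.floor_le_floor (div_le_div_of_nonneg_right h3.1 hs.le),
      Int.floor_le_floor (div_le_div_of_nonneg_right h3.2 hs.le)⟩
  exact (Set.Finite.pi' fun _ => Set.finite_Icc _ _).subset (by simpa [Set.pi] using this)

theorem sq_sub_le {U : Set E} {f g : E → ℂ} (hf : MemLp f 2 (volume.restrict U))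
    (hg : MemLp g 2 (volume.restrict U)) :
    sq U (fun y => f y - g y) ≤ 2 * sq U f + 2 * sq U g := by
  have h1 : Integrable (fun y => ‖f y‖ ^ 2) (volume.restrict U) := by
    simpa using hf.integrable_norm_pow (p := 2) (by norm_num)
  have h2 : Integrable (fun y => ‖g y‖ ^ 2) (volume.restrict U) := by
    simpa using hg.integrable_norm_pow (p := 2) (by norm_num)
  have h3 : Integrable (fun y => ‖f y - g y‖ ^ 2) (volume.restrict U) := by
    simpa using (hf.sub hg).integrable_norm_pow (p := 2) (by norm_num)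
  unfold Pool.Agent.helper27.Probe.sq
  rw [← integral_const_mul, ← integral_const_mul, ← integral_add (h1.const_mul 2) (h2.const_mul 2)]
  refine integral_mono h3 ((h1.const_mul 2).add (h2.const_mul 2)) fun y => ?_
  have := norm_sub_le (f y) (g y)
  have h0 := norm_nonneg (f y - g y)
  nlinarith [sq_nonneg (‖f y‖ - ‖g y‖), norm_nonneg (f y), norm_nonneg (g y)]

theorem sum_sq_le_en {U : Set E} {v : E → ℂ} {g : Fin 3 → E → ℂ} :
    ∑ i, sq U (g i) ≤ en U v g := by
  unfold en
  linarith [sq_nonneg' U v]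

theorem sq_le_en {U : Set E} {v : E → ℂ} {g : Fin 3 → E → ℂ} : sq U v ≤ en U v g := by
  unfold en
  linarith [Finset.sum_nonneg (s := Finset.univ) (fun (i : Fin 3) _ => sq_nonneg' U (g i))]

/-- the case of measurable functions -/
theorem interior_compact_meas (hT : TransIneq) {U K : Set E} (hU : IsOpen U) (hK : IsCompact K)
    (hKU : K ⊆ U) {v : ℕ → E → ℂ} {g : ℕ → Fin 3 → E → ℂ} (hv : ∀ n, H1 U (v n) (g n))
    (hm : ∀ n, Measurable (v n)) {C : ℝ} (hC : ∀ n, en U (v n) (g n) ≤ C) {ε : ℝ} (hε : 0 < ε) :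
    ∃ φ : ℕ → ℕ, StrictMono φ ∧ ∀ m n, ∫ y in K, ‖v (φ m) y - v (φ n) y‖ ^ 2 ≤ ε := by
  have hC0 : 0 ≤ C := (en_nonneg _ _ _).trans (hC 0)
  -- distance to the complement
  obtain ⟨ρ, hρ, hρU⟩ := hK.exists_cthickening_subset_open hU hKU
  set q := (volume : Measure E).real (Q 1 0) with hq
  have hq0 : 0 < q := Q1_pos
  set A := (volume : Measure E).real (closedBall (0 : E) 2) / q * (2 * (4 * C)) with hA
  have hA0 : 0 ≤ A := by positivity
  obtain ⟨s, hs, hs4, hsA⟩ : ∃ s : ℝ, 0 < s ∧ 4 * s ≤ ρ ∧ A * s ^ 2 ≤ ε / 2 := by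
    refine ⟨min (ρ / 4) (Real.sqrt (ε / (2 * (A + 1)))), by positivity, ?_, ?_⟩
    · linarith [min_le_left (ρ / 4) (Real.sqrt (ε / (2 * (A + 1))))]
    · have h1 : (min (ρ / 4) (Real.sqrt (ε / (2 * (A + 1))))) ^ 2 ≤ ε / (2 * (A + 1)) := by
        calc (min (ρ / 4) (Real.sqrt (ε / (2 * (A + 1))))) ^ 2
            ≤ (Real.sqrt (ε / (2 * (A + 1)))) ^ 2 :=
              pow_le_pow_left₀ (by positivity) (min_le_right _ _) 2
          _ = _ := Real.sq_sqrt (by positivity)
      calc A * _ ≤ A * (ε / (2 * (A + 1))) := mul_le_mul_of_nonneg_left h1 hA0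
        _ ≤ (A + 1) * (ε / (2 * (A + 1))) := by
            refine mul_le_mul_of_nonneg_right (by linarith) (by positivity)
        _ = ε / 2 := by field_simp
  -- the cells
  set F := (cells_finite hs hK.isBounded).toFinset with hF
  have hFU : ∀ k ∈ F, ∀ y ∈ Q s k, closedBall y (2 * s) ⊆ U := by
    intro k hk y hy
    rw [hF, Set.Finite.mem_toFinset] at hk
    obtain ⟨x, hx, hxk⟩ := hk
    refine Subset.trans ?_ hρU
    refine Subset.trans ?_ (closedBall_subset_cthickening hx ρ)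
    intro z hz
    rw [mem_closedBall, dist_eq_norm] at hz ⊢
    have h1 := cell_dist hs (show cell s x = cell s y by rw [hxk, show cell s y = k from hy])
    calc ‖z - x‖ = ‖(z - y) + (y - x)‖ := by congr 1; abel
      _ ≤ ‖z - y‖ + ‖y - x‖ := norm_add_le _ _
      _ ≤ 2 * s + 2 * s := add_le_add hz h1
      _ ≤ ρ := by linarith
  have hsub : ∀ k ∈ F, Q s k ⊆ U := fun k hk y hy =>
    hFU k hk y hy (mem_closedBall_self (by positivity))
  have hKcov : K ⊆ ⋃ k ∈ F, Q s k := by
    intro y hy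
    simp only [mem_iUnion]
    exact ⟨cell s y, by rw [hF, Set.Finite.mem_toFinset]; exact ⟨y, hy, rfl⟩, rfl⟩
  have hvol : ∀ k, (volume.restrict (Q s k) : Measure E).real univ = s ^ 3 * q := by
    intro k
    rw [measureReal_restrict_apply MeasurableSet.univ, univ_inter, measureReal_def, Q_vol hs k,
      ENNReal.toReal_mul, ENNReal.toReal_ofReal (by positivity), hq, measureReal_def]
  have hfinQ : ∀ k, IsFiniteMeasure (volume.restrict (Q s k) : Measure E) := by
    intro k
    exact ⟨by rw [Measure.restrict_apply_univ]; exact (Q_bounded hs k).measure_lt_top⟩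
  -- the averages
  set α : ℕ → (Fin 3 → ℤ) → ℂ := fun n k => ∫ y in Q s k, v n y with hα
  set a : ℕ → (F → ℂ) := fun n k => α n k with ha
  have hsqint : ∀ {f : E → ℂ}, MemLp f 2 (volume.restrict U) →
      IntegrableOn (fun y => ‖f y‖ ^ 2) U := by
    intro f hf
    simpa [IntegrableOn] using hf.integrable_norm_pow (p := 2) (by norm_num)
  have habd : ∀ n, a n ∈ closedBall (0 : F → ℂ) (Real.sqrt (s ^ 3 * q * C)) := by
    intro n
    rw [mem_closedBall_zero_iff, pi_norm_le_iff_of_nonneg (Real.sqrt_nonneg _)]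
    intro k
    refine Real.le_sqrt_of_sq_le ?_
    have := hfinQ k
    have hmem : MemLp (v n) 2 (volume.restrict (Q s k)) :=
      (hv n).memLp.mono_measure (Measure.restrict_mono (hsub k k.2) le_rfl)
    have h1 := norm_integral_sq_le hmem
    rw [hvol] at h1
    refine h1.trans (mul_le_mul_of_nonneg_left ?_ (by positivity))
    calc ∫ y in Q s k, ‖v n y‖ ^ 2 ≤ ∫ y in U, ‖v n y‖ ^ 2 :=
          setIntegral_mono_set (hsqint (hv n).memLp) (Eventually.of_forall fun y => by positivity)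
            (HasSubset.Subset.eventuallyLE (hsub k k.2))
      _ = sq U (v n) := rfl
      _ ≤ C := sq_le_en.trans (hC n)
  obtain ⟨b, -, ψ, hψ, hb⟩ := (isCompact_closedBall (0 : F → ℂ) _).tendsto_subseq habd
  have hcau := hb.cauchySeq
  set δ := Real.sqrt (ε / 2 * (s ^ 3 * q) / (F.card + 1)) with hδ
  have hδ0 : 0 < δ := by positivity
  obtain ⟨N, hN⟩ := Metric.cauchySeq_iff.1 hcau δ hδ0
  refine ⟨fun n => ψ (N + n), hψ.comp (fun i j hij => by simpa using hij), fun m n => ?_⟩
  set f : E → ℂ := fun y => v (ψ (N + m)) y - v (ψ (N + n)) y with hf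
  have hH : H1 U f (fun i y => g (ψ (N + m)) i y - g (ψ (N + n)) i y) :=
    (hv _).sub (hv _)
  have hfm : Measurable f := (hm _).sub (hm _)
  have hmb := main_bound hT hU hH hfm hs F hFU
  have hle : ∫ y in K, ‖f y‖ ^ 2 ≤ ∑ k ∈ F, ∫ y in Q s k, ‖f y‖ ^ 2 := by
    have hGU : (⋃ k ∈ F, Q s k) ⊆ U := by
      intro y hy
      simp only [mem_iUnion] at hy
      obtain ⟨k, hk, hy⟩ := hy
      exact hsub k hk hy
    calc ∫ y in K, ‖f y‖ ^ 2 ≤ ∫ y in ⋃ k ∈ F, Q s k, ‖f y‖ ^ 2 :=
          setIntegral_mono_set ((hsqint hH.memLp).mono_set hGU)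
            (Eventually.of_forall fun y => by positivity) (HasSubset.Subset.eventuallyLE hKcov)
      _ = ∑ k ∈ F, ∫ y in Q s k, ‖f y‖ ^ 2 := by
          rw [integral_biUnion_finset]
          · intro k _
            exact cell_meas s k
          · intro k _ l _ hkl
            refine Set.disjoint_left.2 fun y hy hy' => hkl ?_
            rw [← show cell s y = k from hy, ← show cell s y = l from hy']
          · intro k hk
            exact (hsqint hH.memLp).mono_set (hsub k hk)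
  refine hle.trans (hmb.trans ?_)
  have hSC : ∑ i, sq U (fun y => g (ψ (N + m)) i y - g (ψ (N + n)) i y) ≤ 4 * C := by
    calc ∑ i, sq U (fun y => g (ψ (N + m)) i y - g (ψ (N + n)) i y)
        ≤ ∑ i, (2 * sq U (g (ψ (N + m)) i) + 2 * sq U (g (ψ (N + n)) i)) :=
          Finset.sum_le_sum fun i _ => sq_sub_le ((hv _).memLp_grad i) ((hv _).memLp_grad i)
      _ = 2 * ∑ i, sq U (g (ψ (N + m)) i) + 2 * ∑ i, sq U (g (ψ (N + n)) i) := by
          rw [Finset.sum_add_distrib, Finset.mul_sum, Finset.mul_sum]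
      _ ≤ 2 * C + 2 * C := by
          have h1 := (sum_sq_le_en (U := U) (v := v (ψ (N + m))) (g := g (ψ (N + m)))).trans (hC _)
          have h2 := (sum_sq_le_en (U := U) (v := v (ψ (N + n))) (g := g (ψ (N + n)))).trans (hC _)
          linarith
      _ = 4 * C := by ring
  have hterm : ∀ k ∈ F, ‖∫ y in Q s k, f y‖ ^ 2 ≤ δ ^ 2 := by
    intro k hk
    have hd := (hN (N + m) (by omega) (N + n) (by omega)).le
    have h1 : ‖a (ψ (N + m)) ⟨k, hk⟩ - a (ψ (N + n)) ⟨k, hk⟩‖ ≤ δ := by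
      rw [dist_eq_norm] at hd
      exact (norm_le_pi_norm (a (ψ (N + m)) - a (ψ (N + n))) ⟨k, hk⟩).trans hd
    have := hfinQ k
    have hmem : ∀ n, MemLp (v n) 2 (volume.restrict (Q s k)) := fun n =>
      (hv n).memLp.mono_measure (Measure.restrict_mono (hsub k hk) le_rfl)
    have h2 : ∫ y in Q s k, f y = a (ψ (N + m)) ⟨k, hk⟩ - a (ψ (N + n)) ⟨k, hk⟩ := by
      simp only [ha, hα, hf]
      rw [integral_sub ((hmem _).integrable (by norm_num)) ((hmem _).integrable (by norm_num))]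
    rw [h2]
    exact pow_le_pow_left₀ (norm_nonneg _) h1 2
  have hδ2 : δ ^ 2 = ε / 2 * (s ^ 3 * q) / (F.card + 1) := Real.sq_sqrt (by positivity)
  have hsum : ∑ k ∈ F, ‖∫ y in Q s k, f y‖ ^ 2 ≤ ε / 2 * (s ^ 3 * q) := by
    calc ∑ k ∈ F, ‖∫ y in Q s k, f y‖ ^ 2 ≤ ∑ _k ∈ F, δ ^ 2 := Finset.sum_le_sum hterm
      _ = F.card * δ ^ 2 := by rw [Finset.sum_const, nsmul_eq_mul]
      _ ≤ (F.card + 1) * δ ^ 2 := by nlinarith [sq_nonneg δ]
      _ = ε / 2 * (s ^ 3 * q) := by rw [hδ2]; field_simp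
  have t1 : (volume : Measure E).real (closedBall (0 : E) 2) / q *
      (2 * s ^ 2 * ∑ i, sq U (fun y => g (ψ (N + m)) i y - g (ψ (N + n)) i y)) ≤ ε / 2 := by
    calc (volume : Measure E).real (closedBall (0 : E) 2) / q *
      (2 * s ^ 2 * ∑ i, sq U (fun y => g (ψ (N + m)) i y - g (ψ (N + n)) i y))
        ≤ (volume : Measure E).real (closedBall (0 : E) 2) / q * (2 * s ^ 2 * (4 * C)) := by
          refine mul_le_mul_of_nonneg_left ?_ (by positivity)
          exact mul_le_mul_of_nonneg_left hSC (by positivity)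
      _ = A * s ^ 2 := by rw [hA]; ring
      _ ≤ ε / 2 := hsA
  have t2 : (s ^ 3 * q)⁻¹ * ∑ k ∈ F, ‖∫ y in Q s k, f y‖ ^ 2 ≤ ε / 2 := by
    calc (s ^ 3 * q)⁻¹ * ∑ k ∈ F, ‖∫ y in Q s k, f y‖ ^ 2
        ≤ (s ^ 3 * q)⁻¹ * (ε / 2 * (s ^ 3 * q)) := mul_le_mul_of_nonneg_left hsum (by positivity)
      _ = ε / 2 := by field_simp
  calc _ ≤ ε / 2 + ε / 2 := add_le_add t1 t2
    _ = ε := by ring

/-- module M5, from the translation inequality (module M3) -/
theorem interior_compact (hT : TransIneq) {U K : Set E} (hU : IsOpen U) (hK : IsCompact K)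
    (hKU : K ⊆ U) {v : ℕ → E → ℂ} {g : ℕ → Fin 3 → E → ℂ} (hv : ∀ n, H1 U (v n) (g n)) {C : ℝ}
    (hC : ∀ n, en U (v n) (g n) ≤ C) {ε : ℝ} (hε : 0 < ε) :
    ∃ φ : ℕ → ℕ, StrictMono φ ∧ ∀ m n, ∫ y in K, ‖v (φ m) y - v (φ n) y‖ ^ 2 ≤ ε := by
  have hae : ∀ n, AEMeasurable (v n) (volume.restrict U) :=
    fun n => (hv n).memLp.1.aemeasurable
  set w : ℕ → E → ℂ := fun n => (hae n).mk (v n) with hw
  have hvw : ∀ n, v n =ᵐ[volume.restrict U] w n := fun n => (hae n).ae_eq_mk
  have hwH : ∀ n, H1 U (w n) (g n) := fun n => H1.congr (hv n) (hvw n)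
  have hwC : ∀ n, en U (w n) (g n) ≤ C := by
    intro n
    have : sq U (w n) = sq U (v n) := by
      unfold Pool.Agent.helper27.Probe.sq
      refine integral_congr_ae ?_
      filter_upwards [hvw n] with y hy
      rw [hy]
    unfold en
    rw [this]
    exact hC n
  obtain ⟨φ, hφ, h⟩ := interior_compact_meas hT hU hK hKU hwH (fun n => (hae n).measurable_mk)
    hwC hε
  refine ⟨φ, hφ, fun m n => (le_of_eq ?_).trans (h m n)⟩
  refine integral_congr_ae ?_
  have h1 := ae_restrict_of_ae_restrict_of_subset hKU (hvw (φ m))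
  have h2 := ae_restrict_of_ae_restrict_of_subset hKU (hvw (φ n))
  filter_upwards [h1, h2] with y hy1 hy2
  rw [hy1, hy2]

end Pool.Agent.helper88.Probe
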