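import Pool.Agent.helper27.Probe.Basic

/-! M5: interior compactness, part a: averages. -/

open MeasureTheory Metric Set Filter Topology
open scoped ContDiff ENNReal

namespace Pool.Agent.helper88.Probe

open Pool.Agent.helper27.Probe

/-- identity for double integrals of differences -/
theorem double_diff {μ : Measure E} [IsFiniteMeasure μ] {f : E → ℂ} (hf : MemLp f 2 μ) :
    Integrable (fun p : E × E => ‖f p.1 - f p.2‖ ^ 2) (μ.prod μ) ∧
    ∫ p : E × E, ‖f p.1 - f p.2‖ ^ 2 ∂(μ.prod μ) =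
      2 * μ.real univ * (∫ y, ‖f y‖ ^ 2 ∂μ) - 2 * ‖∫ y, f y ∂μ‖ ^ 2 := by
  have hi : Integrable f μ := hf.integrable (by norm_num)
  have hsq : Integrable (fun y => ‖f y‖ ^ 2) μ := by
    have := hf.integrable_norm_pow (p := 2) (by norm_num)
    simpa using this
  have hc : Integrable (fun y => (starRingEnd ℂ) (f y)) μ := by
    refine ⟨Complex.continuous_conj.comp_aestronglyMeasurable hi.1, ?_⟩
    have := hi.2
    refine this.congr' ?_
    exact Filter.Eventually.of_forall (fun y => by simp)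
  have h1 : Integrable (fun p : E × E => ‖f p.1‖ ^ 2) (μ.prod μ) := hsq.comp_fst μ
  have h2 : Integrable (fun p : E × E => ‖f p.2‖ ^ 2) (μ.prod μ) := hsq.comp_snd μ
  have h3 : Integrable (fun p : E × E => f p.1 * (starRingEnd ℂ) (f p.2)) (μ.prod μ) :=
    hi.mul_prod hc
  have h3' : Integrable (fun p : E × E => (f p.1 * (starRingEnd ℂ) (f p.2)).re) (μ.prod μ) :=
    h3.re
  have key : (fun p : E × E => ‖f p.1 - f p.2‖ ^ 2) =
      fun p : E × E => (‖f p.1‖ ^ 2 + ‖f p.2‖ ^ 2) - 2 * (f p.1 * (starRingEnd ℂ) (f p.2)).re := by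
    funext p
    rw [← Complex.normSq_eq_norm_sq, ← Complex.normSq_eq_norm_sq, ← Complex.normSq_eq_norm_sq,
      Complex.normSq_sub]
  have hint : Integrable (fun p : E × E => ‖f p.1 - f p.2‖ ^ 2) (μ.prod μ) := by
    rw [key]
    exact (h1.add h2).sub (h3'.const_mul 2)
  refine ⟨hint, ?_⟩
  rw [key]
  rw [integral_sub (f := fun p : E × E => ‖f p.1‖ ^ 2 + ‖f p.2‖ ^ 2) (h1.add h2)
    (h3'.const_mul 2), integral_add h1 h2, integral_const_mul]
  have e1 : ∫ p : E × E, ‖f p.1‖ ^ 2 ∂(μ.prod μ) = μ.real univ * ∫ y, ‖f y‖ ^ 2 ∂μ := by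
    have := integral_fun_fst (μ := μ) (ν := μ) (fun y => ‖f y‖ ^ 2)
    simpa using this
  have e2 : ∫ p : E × E, ‖f p.2‖ ^ 2 ∂(μ.prod μ) = μ.real univ * ∫ y, ‖f y‖ ^ 2 ∂μ := by
    have := integral_fun_snd (μ := μ) (ν := μ) (fun y => ‖f y‖ ^ 2)
    simpa using this
  have e3 : ∫ p : E × E, (f p.1 * (starRingEnd ℂ) (f p.2)).re ∂(μ.prod μ) =
      ‖∫ y, f y ∂μ‖ ^ 2 := by
    have a1 : ∫ p : E × E, (f p.1 * (starRingEnd ℂ) (f p.2)).re ∂(μ.prod μ) =
        (∫ p : E × E, (f p.1 * (starRingEnd ℂ) (f p.2)) ∂(μ.prod μ)).re := integral_re h3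
    have a2 : ∫ p : E × E, (f p.1 * (starRingEnd ℂ) (f p.2)) ∂(μ.prod μ) =
        (∫ y, f y ∂μ) * ∫ y, (starRingEnd ℂ) (f y) ∂μ :=
      integral_prod_mul (μ := μ) (ν := μ) f (fun y => (starRingEnd ℂ) (f y))
    rw [a1, a2, integral_conj, Complex.mul_conj, Complex.normSq_eq_norm_sq]
    exact Complex.ofReal_re _
  rw [e1, e2, e3]
  ring

theorem norm_integral_sq_le {μ : Measure E} [IsFiniteMeasure μ] {f : E → ℂ} (hf : MemLp f 2 μ) :
    ‖∫ y, f y ∂μ‖ ^ 2 ≤ μ.real univ * ∫ y, ‖f y‖ ^ 2 ∂μ := by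
  have h := (double_diff hf).2
  have h0 : 0 ≤ ∫ p : E × E, ‖f p.1 - f p.2‖ ^ 2 ∂(μ.prod μ) :=
    integral_nonneg (fun p => by positivity)
  nlinarith

/-- translation inequality: statement of module M3 -/
def TransIneq : Prop := ∀ {U : Set E} (_ : IsOpen U) {v : E → ℂ} {g : Fin 3 → E → ℂ} (_ : H1 U v g)
    {A : Set E} (_ : MeasurableSet A) (a : E) (_ : ∀ y ∈ A, ∀ t ∈ Icc (0 : ℝ) 1, y + t • a ∈ U),
    MemLp (fun y => v (y + a) - v y) 2 (volume.restrict A) ∧
    ∫ y in A, ‖v (y + a) - v y‖ ^ 2 ≤ ‖a‖ ^ 2 * ∑ i, sq U (g i)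

theorem lintegral_enorm_sq {μ : Measure E} {f : E → ℂ} (hf : MemLp f 2 μ) :
    ∫⁻ y, ‖f y‖ₑ ^ 2 ∂μ = ENNReal.ofReal (∫ y, ‖f y‖ ^ 2 ∂μ) := by
  have hsq : Integrable (fun y => ‖f y‖ ^ 2) μ := by
    have := hf.integrable_norm_pow (p := 2) (by norm_num)
    simpa using this
  rw [ofReal_integral_eq_lintegral_ofReal hsq (Eventually.of_forall fun y => by positivity)]
  refine lintegral_congr fun y => ?_
  rw [ENNReal.ofReal_pow (norm_nonneg _), ofReal_norm]

theorem H1.congr {U : Set E} {v w : E → ℂ} {g : Fin 3 → E → ℂ} (hv : H1 U v g)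
    (h : v =ᵐ[volume.restrict U] w) : H1 U w g where
  memLp := (memLp_congr_ae h).1 hv.memLp
  memLp_grad := hv.memLp_grad
  weak φ hφ i := by
    rw [← hv.weak φ hφ i]
    refine integral_congr_ae ?_
    filter_upwards [h] with y hy
    rw [hy]

/-- the cell map -/
noncomputable def cell (s : ℝ) (y : E) : Fin 3 → ℤ := fun i => ⌊y i / s⌋

theorem cell_meas (s : ℝ) (k : Fin 3 → ℤ) : MeasurableSet {y : E | cell s y = k} := by
  have : {y : E | cell s y = k} = ⋂ i, {y : E | ⌊y i / s⌋ = k i} := by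
    ext y
    simp [cell, funext_iff]
  rw [this]
  refine MeasurableSet.iInter fun i => ?_
  have hm : Measurable (fun y : E => ⌊y i / s⌋) := by
    have : Measurable (fun y : E => y i / s) := by fun_prop
    exact Int.measurable_floor.comp this
  exact hm (measurableSet_singleton (k i))

theorem cell_dist {s : ℝ} (hs : 0 < s) {y z : E} (h : cell s y = cell s z) :
    ‖z - y‖ ≤ 2 * s := by
  have hi : ∀ i, |z i - y i| ≤ s := by
    intro i
    have h1 : ⌊y i / s⌋ = ⌊z i / s⌋ := congr_fun h i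
    have h2 := Int.abs_sub_lt_one_of_floor_eq_floor h1
    rw [← sub_div, abs_div, abs_of_pos hs, div_lt_one hs] at h2
    rw [abs_sub_comm]
    exact h2.le
  rw [EuclideanSpace.norm_eq]
  refine Real.sqrt_le_iff.2 ⟨by positivity, ?_⟩
  have : ∀ i : Fin 3, ‖(z - y) i‖ ^ 2 ≤ s ^ 2 := by
    intro i
    have := hi i
    rw [Real.norm_eq_abs]
    exact pow_le_pow_left₀ (abs_nonneg _) this 2
  calc ∑ i : Fin 3, ‖(z - y) i‖ ^ 2 ≤ ∑ _i : Fin 3, s ^ 2 := Finset.sum_le_sum fun i _ => this i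
    _ = 3 * s ^ 2 := by simp
    _ ≤ (2 * s) ^ 2 := by nlinarith


/-- the cells as sets -/
def Q (s : ℝ) (k : Fin 3 → ℤ) : Set E := {y : E | cell s y = k}

theorem Q_bounded {s : ℝ} (hs : 0 < s) (k : Fin 3 → ℤ) : Bornology.IsBounded (Q s k) := by
  rcases (Q s k).eq_empty_or_nonempty with h | ⟨y, hy⟩
  · rw [h]; exact Bornology.isBounded_empty
  · refine (isBounded_closedBall (x := y) (r := 2 * s)).subset ?_
    intro z hz
    have : cell s y = cell s z := by
      rw [show cell s y = k from hy, show cell s z = k from hz]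
    rw [mem_closedBall, dist_eq_norm]
    exact cell_dist hs this

/-- bound of the double integrals over the cells -/
theorem cells_bound (hT : TransIneq) {U : Set E} (hU : IsOpen U) {f : E → ℂ} {g : Fin 3 → E → ℂ}
    (hf : H1 U f g) (hm : Measurable f) {s : ℝ} (hs : 0 < s) (F : Finset (Fin 3 → ℤ))
    (hF : ∀ k ∈ F, ∀ y ∈ Q s k, closedBall y (2 * s) ⊆ U) :
    ∑ k ∈ F, ∫⁻ y in Q s k, ∫⁻ z in Q s k, ‖f z - f y‖ₑ ^ 2 ≤
      volume (closedBall (0 : E) (2 * s)) * ENNReal.ofReal ((2 * s) ^ 2 * ∑ i, sq U (g i)) := by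
  set B := closedBall (0 : E) (2 * s) with hB
  have hmeas : Measurable (Function.uncurry fun (y a : E) => ‖f (y + a) - f y‖ₑ ^ 2) := by
    have h1 : Measurable (fun p : E × E => f (p.1 + p.2)) := hm.comp (measurable_fst.add measurable_snd)
    have h2 : Measurable (fun p : E × E => f p.1) := hm.comp measurable_fst
    exact ((h1.sub h2).enorm).pow_const 2
  have step1 : ∀ k ∈ F, ∫⁻ y in Q s k, ∫⁻ z in Q s k, ‖f z - f y‖ₑ ^ 2 ≤
      ∫⁻ a in B, ∫⁻ y in Q s k, ‖f (y + a) - f y‖ₑ ^ 2 := by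
    intro k hk
    rw [lintegral_lintegral_swap (f := fun (a y : E) => ‖f (y + a) - f y‖ₑ ^ 2)
      (hmeas.comp measurable_swap).aemeasurable]
    refine setLIntegral_mono' (cell_meas s k) fun y hy => ?_
    have h1 : ∫⁻ z in Q s k, ‖f z - f y‖ₑ ^ 2 ≤ ∫⁻ z in closedBall y (2 * s), ‖f z - f y‖ₑ ^ 2 := by
      refine lintegral_mono_set fun z hz => ?_
      rw [mem_closedBall, dist_eq_norm]
      exact cell_dist hs (by rw [show cell s y = k from hy, show cell s z = k from hz])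
    refine h1.trans (le_of_eq ?_)
    rw [← lintegral_indicator measurableSet_closedBall, ← lintegral_indicator measurableSet_closedBall,
      ← lintegral_add_left_eq_self _ y]
    refine lintegral_congr fun a => ?_
    by_cases ha : a ∈ B
    · rw [indicator_of_mem ha, indicator_of_mem]
      rw [mem_closedBall, dist_eq_norm]
      simpa [hB] using ha
    · rw [indicator_of_notMem ha, indicator_of_notMem]
      rw [mem_closedBall, dist_eq_norm]
      simpa [hB] using ha
  calc ∑ k ∈ F, ∫⁻ y in Q s k, ∫⁻ z in Q s k, ‖f z - f y‖ₑ ^ 2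
      ≤ ∑ k ∈ F, ∫⁻ a in B, ∫⁻ y in Q s k, ‖f (y + a) - f y‖ₑ ^ 2 := Finset.sum_le_sum step1
    _ = ∫⁻ a in B, ∑ k ∈ F, ∫⁻ y in Q s k, ‖f (y + a) - f y‖ₑ ^ 2 := by
        rw [lintegral_finsetSum]
        intro k _
        exact (hmeas.comp measurable_swap).lintegral_prod_right'
    _ ≤ ∫⁻ _a in B, ENNReal.ofReal ((2 * s) ^ 2 * ∑ i, sq U (g i)) := by
        refine setLIntegral_mono' measurableSet_closedBall fun a ha => ?_
        have hunion : ∑ k ∈ F, ∫⁻ y in Q s k, ‖f (y + a) - f y‖ₑ ^ 2 =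
            ∫⁻ y in ⋃ k ∈ F, Q s k, ‖f (y + a) - f y‖ₑ ^ 2 := by
          rw [lintegral_biUnion_finset]
          · intro k _ l _ hkl
            refine Set.disjoint_left.2 fun y hy hy' => hkl ?_
            rw [← show cell s y = k from hy, ← show cell s y = l from hy']
          · intro k _
            exact cell_meas s k
        rw [hunion]
        have hA : MeasurableSet (⋃ k ∈ F, Q s k) :=
          F.measurableSet_biUnion fun k _ => cell_meas s k
        have ha' : ‖a‖ ≤ 2 * s := by simpa [hB] using ha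
        have hTT := hT hU hf hA a (by
          intro y hy t ht
          simp only [mem_iUnion] at hy
          obtain ⟨k, hk, hy⟩ := hy
          refine hF k hk y hy ?_
          rw [mem_closedBall, dist_eq_norm, add_sub_cancel_left, norm_smul, Real.norm_eq_abs,
            abs_of_nonneg ht.1]
          calc t * ‖a‖ ≤ 1 * ‖a‖ := mul_le_mul_of_nonneg_right ht.2 (norm_nonneg _)
            _ ≤ 2 * s := by rw [one_mul]; exact ha')
        rw [lintegral_enorm_sq hTT.1]
        refine ENNReal.ofReal_le_ofReal (hTT.2.trans ?_)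
        have hS : 0 ≤ ∑ i, sq U (g i) := Finset.sum_nonneg fun i _ => sq_nonneg' _ _
        exact mul_le_mul_of_nonneg_right (pow_le_pow_left₀ (norm_nonneg _) ha' 2) hS
    _ = volume B * ENNReal.ofReal ((2 * s) ^ 2 * ∑ i, sq U (g i)) := by
        rw [setLIntegral_const, mul_comm]

end Pool.Agent.helper88.Probe
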